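import Pool.Agent.Helper579.Beps.Defs

set_option maxHeartbeats 4000000

open scoped InnerProductSpace
open Finset Module

noncomputable section

namespace Pool.Agent.H570.Beps

open Pool.Agent.Helper579.Beps

/-- Bessel type inequality for vector valued coefficients. -/
lemma hsb {E : Type*} [NormedAddCommGroup E] [InnerProductSpace ℝ E]
    {ι κ : Type*} [Fintype ι] [Fintype κ] {e : ι → E} {φ : κ → E}
    (he : Orthonormal ℝ e) (hφ : Orthonormal ℝ φ) {M : ℕ} (g : ι → EuclideanSpace ℝ (Fin M)) :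
    ∑ i, ‖∑ j, ⟪e j, φ i⟫_ℝ • g j‖ ^ 2 ≤ ∑ j, ‖g j‖ ^ 2 := by
  classical
  have h1 : ∀ i, ‖∑ j, ⟪e j, φ i⟫_ℝ • g j‖ ^ 2
      = ∑ k, ⟪φ i, ∑ j, g j k • e j⟫_ℝ ^ 2 := by
    intro i
    rw [EuclideanSpace.norm_sq_eq]
    refine Finset.sum_congr rfl fun k _ => ?_
    have : (∑ j, ⟪e j, φ i⟫_ℝ • g j) k = ⟪φ i, ∑ j, g j k • e j⟫_ℝ := by
      rw [inner_sum]
      simp only [inner_smul_right]
      have : (∑ j, ⟪e j, φ i⟫_ℝ • g j) k = ∑ j, (⟪e j, φ i⟫_ℝ • g j) k := by
        simp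
      rw [this]
      refine Finset.sum_congr rfl fun j _ => ?_
      simp only [PiLp.smul_apply, smul_eq_mul]
      rw [real_inner_comm]; ring
    rw [this, Real.norm_eq_abs, sq_abs]
  simp only [h1]
  rw [Finset.sum_comm]
  have h2 : ∀ k, ∑ i, ⟪φ i, ∑ j, g j k • e j⟫_ℝ ^ 2 ≤ ∑ j, g j k ^ 2 := by
    intro k
    have hb := hφ.sum_inner_products_le (∑ j, g j k • e j) (s := Finset.univ)
    have hn : ‖∑ j, g j k • e j‖ ^ 2 = ∑ j, g j k ^ 2 := by
      rw [← real_inner_self_eq_norm_sq, he.inner_sum]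
      simp [sq]
    rw [hn] at hb
    refine le_trans (le_of_eq ?_) hb
    refine Finset.sum_congr rfl fun i _ => ?_
    rw [Real.norm_eq_abs, sq_abs]
  refine (Finset.sum_le_sum fun k _ => h2 k).trans (le_of_eq ?_)
  rw [Finset.sum_comm]
  refine Finset.sum_congr rfl fun j _ => ?_
  rw [EuclideanSpace.norm_sq_eq]
  simp

lemma orth_single (n : ℕ) :
    Orthonormal ℝ (fun j : Fin n => (EuclideanSpace.single j (1 : ℝ) : EuclideanSpace ℝ (Fin n))) := by
  have := (EuclideanSpace.basisFun (Fin n) ℝ).orthonormal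
  have h2 : (fun j : Fin n => (EuclideanSpace.single j (1 : ℝ) : EuclideanSpace ℝ (Fin n)))
      = ⇑(EuclideanSpace.basisFun (Fin n) ℝ) := by
    funext j
    simp
  rw [h2]; exact this

lemma expand_single {n : ℕ} (x : EuclideanSpace ℝ (Fin n)) :
    ∑ j, ⟪(EuclideanSpace.single j (1 : ℝ) : EuclideanSpace ℝ (Fin n)), x⟫_ℝ •
      (EuclideanSpace.single j (1 : ℝ) : EuclideanSpace ℝ (Fin n)) = x := by
  have := (EuclideanSpace.basisFun (Fin n) ℝ).sum_repr' x
  simpa using this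

lemma span_single (n : ℕ) :
    Submodule.span ℝ (Set.range (fun j : Fin n =>
      (EuclideanSpace.single j (1 : ℝ) : EuclideanSpace ℝ (Fin n)))) = ⊤ := by
  rw [eq_top_iff]
  intro x _
  rw [← expand_single x]
  exact Submodule.sum_mem _ fun j _ => Submodule.smul_mem _ _ (Submodule.subset_span ⟨j, rfl⟩)

/-- Hilbert-Schmidt sums over an orthonormal family are at most those over the unit basis. -/
lemma hs_le {n p : ℕ} {κ : Type*} [Fintype κ]
    (A : EuclideanSpace ℝ (Fin n) →ₗ[ℝ] EuclideanSpace ℝ (Fin p))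
    {f : κ → EuclideanSpace ℝ (Fin n)} (hf : Orthonormal ℝ f) :
    ∑ i, ‖A (f i)‖ ^ 2 ≤ ∑ j, ‖A (EuclideanSpace.single j 1)‖ ^ 2 := by
  have h := hsb (orth_single n) hf (fun j => A (EuclideanSpace.single j 1))
  refine le_trans (le_of_eq ?_) h
  refine Finset.sum_congr rfl fun i _ => ?_
  conv_lhs => rw [← expand_single (f i)]
  rw [map_sum]
  simp only [map_smul]

/-- projection formula -/
lemma starProj_eq {n m : ℕ} {f : Fin m → EuclideanSpace ℝ (Fin n)} (hf : Orthonormal ℝ f)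
    {T : Submodule ℝ (EuclideanSpace ℝ (Fin n))} (hT : Submodule.span ℝ (Set.range f) = T)
    (x : EuclideanSpace ℝ (Fin n)) :
    T.starProjection x = ∑ i, ⟪f i, x⟫_ℝ • f i := by
  classical
  apply Submodule.eq_starProjection_of_mem_of_inner_eq_zero
  · rw [← hT]
    exact Submodule.sum_mem _ fun j _ => Submodule.smul_mem _ _ (Submodule.subset_span ⟨j, rfl⟩)
  · intro w hw
    rw [← hT] at hw
    induction hw using Submodule.span_induction with
    | mem y hy =>
      obtain ⟨i, rfl⟩ := hy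
      rw [inner_sub_left, sum_inner]
      simp only [inner_smul_left]
      have : ∀ j, ⟪f j, f i⟫_ℝ = if j = i then 1 else 0 := fun j => by
        rw [orthonormal_iff_ite.mp hf]
      simp [this, real_inner_comm]
    | zero => simp
    | add y z _ _ h1 h2 => rw [inner_add_right, h1, h2, add_zero]
    | smul a y _ h1 => rw [inner_smul_right, h1, mul_zero]

variable {X : Type} [NormedAddCommGroup X] [NormedSpace ℝ X]

lemma hasCost_top {n : ℕ} (V : EuclideanSpace ℝ (Fin n) →ₗ[ℝ] X) :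
    HasCost V ⊤ (∑ j, ‖V (EuclideanSpace.single j 1)‖ ^ 2) :=
  ⟨n, _, orth_single n, span_single n, le_rfl⟩

lemma hasCost_mono {n : ℕ} {V : EuclideanSpace ℝ (Fin n) →ₗ[ℝ] X}
    {T : Submodule ℝ (EuclideanSpace ℝ (Fin n))} {c c' : ℝ} (h : HasCost V T c) (hc : c ≤ c') :
    HasCost V T c' := by
  obtain ⟨m, f, h1, h2, h3⟩ := h
  exact ⟨m, f, h1, h2, h3.trans hc⟩

lemma hasCost_nonneg {n : ℕ} {V : EuclideanSpace ℝ (Fin n) →ₗ[ℝ] X}
    {T : Submodule ℝ (EuclideanSpace ℝ (Fin n))} {c : ℝ} (h : HasCost V T c) : 0 ≤ c := by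
  obtain ⟨m, f, h1, h2, h3⟩ := h
  exact le_trans (Finset.sum_nonneg fun i _ => by positivity) h3

lemma hasCost_bot {n : ℕ} (V : EuclideanSpace ℝ (Fin n) →ₗ[ℝ] X) : HasCost V ⊥ 0 := by
  refine ⟨0, Fin.elim0, ?_, ?_, ?_⟩
  · rw [orthonormal_iff_ite]; intro i; exact i.elim0
  · have : Set.range (Fin.elim0 : Fin 0 → EuclideanSpace ℝ (Fin n)) = ∅ := by
      ext x; simp
    rw [this]; simp
  · simp

lemma hasCost_sup {n : ℕ} {V : EuclideanSpace ℝ (Fin n) →ₗ[ℝ] X}
    {A B : Submodule ℝ (EuclideanSpace ℝ (Fin n))} {a b : ℝ} (hA : HasCost V A a)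
    (hB : HasCost V B b) (hAB : B ≤ Aᗮ) : HasCost V (A ⊔ B) (a + b) := by
  classical
  obtain ⟨m, f, f1, f2, f3⟩ := hA
  obtain ⟨m', g, g1, g2, g3⟩ := hB
  have hfg : ∀ i j, ⟪f i, g j⟫_ℝ = 0 := by
    intro i j
    have hf : f i ∈ A := by rw [← f2]; exact Submodule.subset_span ⟨i, rfl⟩
    have hg : g j ∈ B := by rw [← g2]; exact Submodule.subset_span ⟨j, rfl⟩
    exact (Submodule.mem_orthogonal _ _).1 (hAB hg) _ hf
  refine ⟨m + m', Fin.append f g, ?_, ?_, ?_⟩
  · rw [orthonormal_iff_ite] at f1 g1 ⊢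
    intro i j
    refine Fin.addCases (fun i => ?_) (fun i => ?_) i <;>
    refine Fin.addCases (fun j => ?_) (fun j => ?_) j
    · rw [Fin.append_left, Fin.append_left, f1]
      simp
    · rw [Fin.append_left, Fin.append_right, hfg]
      rw [if_neg]
      intro h
      have := congrArg Fin.val h
      simp at this
      omega
    · rw [Fin.append_left, Fin.append_right, real_inner_comm, hfg]
      rw [if_neg]
      intro h
      have := congrArg Fin.val h
      simp at this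
      omega
    · rw [Fin.append_right, Fin.append_right, g1]
      simp
  · rw [← f2, ← g2, ← Submodule.span_union]
    congr 1
    ext x
    simp only [Set.mem_range, Set.mem_union]
    constructor
    · rintro ⟨i, rfl⟩
      refine Fin.addCases (fun i => ?_) (fun i => ?_) i
      · left; exact ⟨i, by rw [Fin.append_left]⟩
      · right; exact ⟨i, by rw [Fin.append_right]⟩
    · rintro (⟨i, rfl⟩ | ⟨i, rfl⟩)
      · exact ⟨Fin.castAdd m' i, by rw [Fin.append_left]⟩
      · exact ⟨Fin.natAdd m i, by rw [Fin.append_right]⟩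
  · rw [Fin.sum_univ_add]
    simp only [Fin.append_left, Fin.append_right]
    exact add_le_add f3 g3

lemma hsle_of_cost {n : ℕ} {V : EuclideanSpace ℝ (Fin n) →ₗ[ℝ] X}
    {T : Submodule ℝ (EuclideanSpace ℝ (Fin n))} {c : ℝ} (h : HasCost V T c) :
    HSle V T ⊥ c := by
  obtain ⟨m, f, h1, h2, h3⟩ := h
  intro p w hw
  have key := hsb h1 (orth_single n) (fun i => w (V (f i)))
  calc ∑ j, ‖w (V (T.starProjection (EuclideanSpace.single j 1)
      - (⊥ : Submodule ℝ (EuclideanSpace ℝ (Fin n))).starProjection (EuclideanSpace.single j 1)))‖ ^ 2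
      = ∑ j, ‖∑ i, ⟪f i, (EuclideanSpace.single j (1 : ℝ) : EuclideanSpace ℝ (Fin n))⟫_ℝ •
          w (V (f i))‖ ^ 2 := by
        refine Finset.sum_congr rfl fun j _ => ?_
        rw [starProj_eq h1 h2]
        simp only [Submodule.starProjection_bot, _root_.zero_apply, sub_zero,
          map_sum, map_smul]
    _ ≤ ∑ i, ‖w (V (f i))‖ ^ 2 := key
    _ ≤ ∑ i, ‖V (f i)‖ ^ 2 := Finset.sum_le_sum fun i _ => by
        have := hw (V (f i))
        have h0 := norm_nonneg (w (V (f i)))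
        nlinarith
    _ ≤ c := h3

end Pool.Agent.H570.Beps
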