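import Pool.Agent.H570.BepsB

set_option maxHeartbeats 4000000

open scoped InnerProductSpace
open Finset Module

noncomputable section

namespace Pool.Agent.H570.Beps

open Pool.Agent.Helper579.Beps

lemma seqs (stage : ∀ (l : ℕ) (t : ℝ), 0 < t → ∃ N M : ℕ, StageOK l t N M) :
    ∃ B N M : ℕ → ℕ, (∀ l, 1 ≤ B l) ∧ (∀ l, B l ≤ B (l + 1)) ∧
      ∀ l, StageOK (l + 1) ((1 / 2) ^ (l + 1) / Real.sqrt (B l)) (N (l + 1)) (M (l + 1)) ∧
        M (l + 1) + 3 * (l + 1) ≤ B (l + 1) := by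
  have h1 : ∀ (l b : ℕ), ∃ N M : ℕ, 1 ≤ b →
      StageOK (l + 1) ((1 / 2) ^ (l + 1) / Real.sqrt (b : ℝ)) N M := by
    intro l b
    by_cases hb : 1 ≤ b
    · have hb' : (0 : ℝ) < b := by exact_mod_cast hb
      obtain ⟨N, M, h⟩ := stage (l + 1) ((1 / 2) ^ (l + 1) / Real.sqrt (b : ℝ))
        (by have := Real.sqrt_pos.2 hb'; positivity)
      exact ⟨N, M, fun _ => h⟩
    · exact ⟨0, 0, fun h => absurd h hb⟩
  choose Nf Mf hf using h1
  let B : ℕ → ℕ := fun l => Nat.rec 1 (fun l b => max b (Mf l b + 3 * (l + 1))) l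
  have hBs : ∀ l, B (l + 1) = max (B l) (Mf l (B l) + 3 * (l + 1)) := fun l => rfl
  have hB1 : ∀ l, 1 ≤ B l := by
    intro l
    induction l with
    | zero => exact le_rfl
    | succ l ih => rw [hBs]; exact ih.trans (le_max_left _ _)
  refine ⟨B, fun l => Nf (l - 1) (B (l - 1)), fun l => Mf (l - 1) (B (l - 1)), hB1, ?_, ?_⟩
  · intro l; rw [hBs]; exact le_max_left _ _
  · intro l
    simp only [Nat.add_sub_cancel]
    refine ⟨hf l (B l) (hB1 l), ?_⟩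
    rw [hBs]; exact le_max_right _ _

variable {X : Type} [NormedAddCommGroup X] [NormedSpace ℝ X]

/-- the filtration -/
def TT {n : ℕ} (V : EuclideanSpace ℝ (Fin n) →ₗ[ℝ] X) (P : ℕ → X →ₗ[ℝ] X)
    (G : ℕ → Submodule ℝ (EuclideanSpace ℝ (Fin n)))
    (T : Submodule ℝ (EuclideanSpace ℝ (Fin n))) (K : ℕ) :
    Submodule ℝ (EuclideanSpace ℝ (Fin n)) :=
  T ⊓ (G K)ᗮ ⊓ LinearMap.ker (V - (P K).comp V)

lemma mem_TT {n : ℕ} {V : EuclideanSpace ℝ (Fin n) →ₗ[ℝ] X} {P : ℕ → X →ₗ[ℝ] X}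
    {G : ℕ → Submodule ℝ (EuclideanSpace ℝ (Fin n))}
    {T : Submodule ℝ (EuclideanSpace ℝ (Fin n))} {K : ℕ} {f : EuclideanSpace ℝ (Fin n)} :
    f ∈ TT V P G T K ↔ f ∈ T ∧ f ∈ (G K)ᗮ ∧ P K (V f) = V f := by
  unfold TT
  simp only [Submodule.mem_inf, LinearMap.mem_ker, LinearMap.sub_apply, LinearMap.comp_apply,
    sub_eq_zero, and_assoc]
  constructor
  · rintro ⟨h1, h2, h3⟩; exact ⟨h1, h2, h3.symm⟩
  · rintro ⟨h1, h2, h3⟩; exact ⟨h1, h2, h3.symm⟩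

lemma finrank_block {n : ℕ} {V : EuclideanSpace ℝ (Fin n) →ₗ[ℝ] X} {P : ℕ → X →ₗ[ℝ] X}
    {G : ℕ → Submodule ℝ (EuclideanSpace ℝ (Fin n))}
    {T : Submodule ℝ (EuclideanSpace ℝ (Fin n))} {K : ℕ} (W : Submodule ℝ X)
    [FiniteDimensional ℝ W] (hW : ∀ x, x - P (K + 1) x ∈ W) :
    finrank ℝ (TT V P G T K ⊓ (TT V P G T (K + 1))ᗮ : Submodule ℝ (EuclideanSpace ℝ (Fin n)))
      ≤ finrank ℝ (G (K + 1)) + finrank ℝ W := by
  let D : Submodule ℝ (EuclideanSpace ℝ (Fin n)) := TT V P G T K ⊓ (TT V P G T (K + 1))ᗮ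
  let A1 : D →ₗ[ℝ] G (K + 1) :=
    ((G (K + 1)).orthogonalProjectionOnto : EuclideanSpace ℝ (Fin n) →ₗ[ℝ] G (K + 1)).comp D.subtype
  let A2 : D →ₗ[ℝ] W := LinearMap.codRestrict W ((V - (P (K + 1)).comp V).comp D.subtype)
    (fun f => by simpa using hW (V f))
  have hinj : Function.Injective (A1.prod A2) := by
    rw [← LinearMap.ker_eq_bot, LinearMap.ker_eq_bot']
    rintro ⟨f, hf⟩ h
    have h1 : A1 ⟨f, hf⟩ = 0 := congrArg Prod.fst h
    have h2 : A2 ⟨f, hf⟩ = 0 := congrArg Prod.snd h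
    have h1' : f ∈ (G (K + 1))ᗮ := by
      have : (G (K + 1)).starProjection f = 0 := by
        rw [Submodule.starProjection_apply]
        exact congrArg Subtype.val h1
      exact (Submodule.starProjection_apply_eq_zero_iff _).1 this
    have h2' : V f - P (K + 1) (V f) = 0 := congrArg Subtype.val h2
    have hfD : f ∈ TT V P G T K ∧ f ∈ (TT V P G T (K + 1))ᗮ := Submodule.mem_inf.1 hf
    have hmem : f ∈ TT V P G T (K + 1) := by
      rw [mem_TT]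
      refine ⟨(mem_TT.1 hfD.1).1, h1', ?_⟩
      rw [sub_eq_zero] at h2'; exact h2'.symm
    have : f = 0 := inner_self_eq_zero.1 ((Submodule.mem_orthogonal _ _).1 hfD.2 f hmem)
    exact Subtype.ext this
  have := LinearMap.finrank_le_finrank_of_injective hinj
  rwa [finrank_prod] at this

lemma block {R : ℕ → ℕ} {n : ℕ} (V : EuclideanSpace ℝ (Fin n) →ₗ[ℝ] X) (P : ℕ → X →ₗ[ℝ] X)
    (hP1 : ∀ K x, ‖P K x‖ ≤ ‖x‖) (hP3 : ∀ K x, P K (P K x) = P K x)
    (hP4 : ∀ K, ∃ W : Submodule ℝ X, FiniteDimensional ℝ W ∧ Module.finrank ℝ W ≤ 2 * K ∧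
      ∀ x, x - P K x ∈ W)
    (hP5 : ∀ K (H : Submodule ℝ X), FiniteDimensional ℝ H → (∀ h ∈ H, P K h = h) →
      Module.finrank ℝ H ≤ R K →
      ∃ (m : ℕ) (u : X →ₗ[ℝ] EuclideanSpace ℝ (Fin m)), (∀ x, ‖u x‖ ≤ ‖x‖) ∧
        ∀ h ∈ H, ‖h‖ ^ 2 ≤ 8 * ‖u h‖ ^ 2)
    {G : ℕ → Submodule ℝ (EuclideanSpace ℝ (Fin n))}
    (T : Submodule ℝ (EuclideanSpace ℝ (Fin n))) {S : ℕ → ℝ}
    (hHS : ∀ l, HSle V (G (l + 1)) (G l) (S l)) (K : ℕ) (b : ℕ)
    (hb : finrank ℝ (G (K + 1)) + 2 * (K + 1) ≤ b) (hbR : b ≤ R K) (τ : ℝ) (hτ0 : 0 ≤ τ)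
    (hτ : ∀ f ∈ (G (K + 2))ᗮ, ‖V f‖ ≤ τ * ‖f‖) (hτ2 : b * τ ^ 2 ≤ (1 / 4) ^ (K + 1)) :
    HasCost V (TT V P G T K ⊓ (TT V P G T (K + 1))ᗮ)
      (32 * (S K + S (K + 1)) + 2 * (1 / 4) ^ (K + 1)) := by
  classical
  obtain ⟨W, hWf, hWr, hW⟩ := hP4 (K + 1)
  set D : Submodule ℝ (EuclideanSpace ℝ (Fin n)) := TT V P G T K ⊓ (TT V P G T (K + 1))ᗮ with hD
  have hm : finrank ℝ D ≤ b := (finrank_block W hW).trans (by omega)
  let B := stdOrthonormalBasis ℝ D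
  let f : Fin (finrank ℝ D) → EuclideanSpace ℝ (Fin n) := fun i => (B i : EuclideanSpace ℝ (Fin n))
  have hf : Orthonormal ℝ f := by
    have := B.orthonormal.comp_linearIsometry D.subtypeₗᵢ
    exact this
  have hspan : Submodule.span ℝ (Set.range f) = D := by
    have h1 : Set.range f = D.subtype '' (Set.range B) := by
      rw [← Set.range_comp]; rfl
    rw [h1, ← Submodule.map_span]
    have h2 : Submodule.span ℝ (Set.range B) = ⊤ := by
      have := B.toBasis.span_eq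
      simpa using this
    rw [h2]; simp
  have hfD : ∀ i, f i ∈ D := fun i => (B i).2
  have hfT : ∀ i, f i ∈ TT V P G T K := fun i => (Submodule.mem_inf.1 (hfD i)).1
  have hf1 : ∀ i, f i ∈ (G K)ᗮ := fun i => (mem_TT.1 (hfT i)).2.1
  have hf2 : ∀ i, P K (V (f i)) = V (f i) := fun i => (mem_TT.1 (hfT i)).2.2
  let f' : Fin (finrank ℝ D) → EuclideanSpace ℝ (Fin n) := fun i => (G (K + 2)).starProjection (f i)
  let H : Submodule ℝ X := Submodule.span ℝ (Set.range fun i => P K (V (f' i)))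
  have hHfd : FiniteDimensional ℝ H := FiniteDimensional.span_of_finite ℝ (Set.finite_range _)
  have hHr : finrank ℝ H ≤ R K := by
    refine le_trans ?_ hbR
    refine le_trans ?_ hm
    have := finrank_range_le_card (R := ℝ) (fun i => P K (V (f' i)))
    simpa [Set.finrank] using this
  have hHP : ∀ h ∈ H, P K h = h := by
    intro h hh
    have : H ≤ LinearMap.ker (P K - LinearMap.id) := by
      rw [Submodule.span_le]
      rintro _ ⟨i, rfl⟩
      simp only [SetLike.mem_coe, LinearMap.mem_ker, LinearMap.sub_apply, LinearMap.id_apply,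
        hP3, sub_self]
    have := this hh
    simpa [sub_eq_zero] using this
  obtain ⟨p, u, hu1, hu2⟩ := hP5 K H hHfd hHP hHr
  let w : X →ₗ[ℝ] EuclideanSpace ℝ (Fin p) := u.comp (P K)
  have hw : ∀ x, ‖w x‖ ≤ ‖x‖ := fun x => (hu1 _).trans (hP1 K x)
  let A : ℕ → EuclideanSpace ℝ (Fin n) →ₗ[ℝ] EuclideanSpace ℝ (Fin p) := fun l =>
    w.comp (V.comp (((G (l + 1)).starProjection - (G l).starProjection :
      EuclideanSpace ℝ (Fin n) →L[ℝ] EuclideanSpace ℝ (Fin n)) :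
      EuclideanSpace ℝ (Fin n) →ₗ[ℝ] EuclideanSpace ℝ (Fin n)))
  have hA : ∀ l x, A l x = w (V ((G (l + 1)).starProjection x - (G l).starProjection x)) :=
    fun l x => rfl
  have hAS : ∀ l, ∑ i, ‖A l (f i)‖ ^ 2 ≤ S l := by
    intro l
    refine (hs_le (A l) hf).trans ?_
    have := hHS l p w hw
    simpa only [hA] using this
  have hsum : ∀ i, w (V (f' i)) = A (K + 1) (f i) + A K (f i) := by
    intro i
    have h0 : (G K).starProjection (f i) = 0 :=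
      (Submodule.starProjection_apply_eq_zero_iff _).2 (hf1 i)
    rw [hA, hA, h0, sub_zero, ← map_add, ← map_add]
    congr 2
    simp only [f']
    abel
  have hpt : ∀ i, ‖V (f i)‖ ^ 2 ≤ 32 * (‖A (K + 1) (f i)‖ ^ 2 + ‖A K (f i)‖ ^ 2) + 2 * τ ^ 2 := by
    intro i
    have h1 : V (f i) = P K (V (f' i)) + P K (V (f i - f' i)) := by
      rw [← map_add, ← map_add, add_sub_cancel, hf2]
    have h2 : ‖P K (V (f' i))‖ ^ 2 ≤ 8 * ‖w (V (f' i))‖ ^ 2 := by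
      have := hu2 (P K (V (f' i))) (Submodule.subset_span ⟨i, rfl⟩)
      simpa [w] using this
    have h3 : ‖w (V (f' i))‖ ^ 2 ≤ 2 * (‖A (K + 1) (f i)‖ ^ 2 + ‖A K (f i)‖ ^ 2) := by
      rw [hsum]
      have := norm_add_le (A (K + 1) (f i)) (A K (f i))
      have h0 := norm_nonneg (A (K + 1) (f i) + A K (f i))
      nlinarith [sq_nonneg (‖A (K + 1) (f i)‖ - ‖A K (f i)‖)]
    have h4 : ‖P K (V (f i - f' i))‖ ≤ τ := by
      refine (hP1 _ _).trans ?_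
      have hm : f i - f' i ∈ (G (K + 2))ᗮ := Submodule.sub_starProjection_mem_orthogonal _
      refine (hτ _ hm).trans ?_
      have hn : ‖f i - f' i‖ ≤ 1 := by
        have : f i - f' i = (G (K + 2))ᗮ.starProjection (f i) := by
          rw [Submodule.starProjection_orthogonal_val]
        rw [this]
        refine (Submodule.norm_starProjection_apply_le _ _).trans ?_
        rw [hf.1 i]
      calc τ * ‖f i - f' i‖ ≤ τ * 1 := mul_le_mul_of_nonneg_left hn hτ0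
        _ = τ := mul_one _
    have h5 : ‖V (f i)‖ ≤ ‖P K (V (f' i))‖ + τ := by
      rw [h1]
      exact (norm_add_le _ _).trans (by linarith)
    have h6 := norm_nonneg (V (f i))
    have h7 : ‖V (f i)‖ ^ 2 ≤ 2 * ‖P K (V (f' i))‖ ^ 2 + 2 * τ ^ 2 := by
      nlinarith [sq_nonneg (‖P K (V (f' i))‖ - τ)]
    linarith
  refine ⟨_, f, hf, hspan, ?_⟩
  calc ∑ i, ‖V (f i)‖ ^ 2
      ≤ ∑ i, (32 * (‖A (K + 1) (f i)‖ ^ 2 + ‖A K (f i)‖ ^ 2) + 2 * τ ^ 2) :=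
        Finset.sum_le_sum fun i _ => hpt i
    _ = 32 * (∑ i, ‖A (K + 1) (f i)‖ ^ 2 + ∑ i, ‖A K (f i)‖ ^ 2) + finrank ℝ D * (2 * τ ^ 2) := by
        rw [Finset.sum_add_distrib, ← Finset.mul_sum, Finset.sum_add_distrib]
        simp
    _ ≤ 32 * (S (K + 1) + S K) + 2 * (b * τ ^ 2) := by
        have h1 := hAS (K + 1)
        have h2 := hAS K
        have h3 : (finrank ℝ D : ℝ) ≤ b := by exact_mod_cast hm
        have h4 : (finrank ℝ D : ℝ) * (2 * τ ^ 2) ≤ b * (2 * τ ^ 2) :=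
          mul_le_mul_of_nonneg_right h3 (by positivity)
        linarith
    _ ≤ 32 * (S K + S (K + 1)) + 2 * (1 / 4) ^ (K + 1) := by linarith

end Pool.Agent.H570.Beps
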